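import Mathlib
import Pool.Agent.Helper68.PT.Ext2
import Pool.Agent.Helper81.VCP.Defs
import Pool.Agent.Helper81.VCP.W1
import Pool.Agent.Helper81.VCP.W2
import Pool.Agent.Helper81.VCP.W3
import Pool.Agent.Helper81.VCP.W4

/-!
# The loop machine with a time bound whose exponent does not depend on the initialisation

Same programs as in `Helper81.VCP.W3`, `Helper81.VCP.W4`; the time of the initialisation is kept apart.
-/

set_option autoImplicit false

namespace Pool.Agent.Helper64.ETHT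

open Pool.Agent.Helper68.SP Pool.Agent.Helper36.PT Pool.Agent.Helper81.VCP

theorem exists_loop2 {σ : Type} [Enc σ] (step : σ → σ) (done : σ → Bool)
    (out : σ → Word) (hs : PolyTime step) (hd : PolyTime done) (ho : PolyTime out) :
    ∃ c : ℕ, ∀ init : Word → σ, PolyTime init →
    ∃ (p : P) (ci : ℕ), ∀ (w : List Bool) (k B : ℕ),
      (∀ j < k, done (step^[j] (init ⟨w⟩)) = false) →
      done (step^[k] (init ⟨w⟩)) = true →
      (∀ j ≤ k, esz (step^[j] (init ⟨w⟩)) ≤ B) →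
      ExecLe p (st [] (fr w) [] [] [] []) ((w.length + 2) ^ ci + (k + B + 2) ^ c)
        (st [] (fr (out (step^[k] (init ⟨w⟩))).w) [] [] [] []) := by
  obtain ⟨ps, ds, hps⟩ := hs
  obtain ⟨pd, dd, hpd⟩ := hd
  obtain ⟨po, d0, hpo⟩ := ho
  refine ⟨ds + dd + d0 + 1 + 8, fun init hi => ?_⟩
  obtain ⟨pi, di, hpi⟩ := hi
  refine ⟨.seq pi (.seq (flagP pd)
    (.seq (.whl .inp isT (.seq (.pop .inp) (.seq ps (flagP pd)))) po)), di, ?_⟩
  intro w k B hf hk hB
  have k1 : ExecLe pi (st [] (fr w) [] [] [] []) ((w.length + 2) ^ di)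
      (st [] (fr (enc (init ⟨w⟩))) [] [] [] []) := by
    have := hpi ⟨w⟩ [] [] [] []
    rw [List.append_nil, List.append_nil] at this
    exact this
  have k2 := exec_flagP hpd (init ⟨w⟩) B (hB 0 (Nat.zero_le _)) [] []
  have k3 := exec_loopP hps hpd B [] [] k (init ⟨w⟩) hf hk hB
  have k4 : ExecLe po (st [] (fr (enc (step^[k] (init ⟨w⟩)))) [] [] [] []) ((B + 2) ^ d0)
      (st [] (fr (out (step^[k] (init ⟨w⟩))).w) [] [] [] []) := by
    have := (hpo (step^[k] (init ⟨w⟩)) []).mono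
      (Nat.pow_le_pow_left (Nat.add_le_add_right (hB k le_rfl) 2) d0) [] [] []
    rw [List.append_nil, List.append_nil] at this
    exact this
  refine (k1.seq (k2.seq (k3.seq k4))).mono ?_
  set N := k + B + 2 with hN
  set D := ds + dd + d0 + 1 with hD
  have hN2 : 2 ≤ N := by omega
  have hN1 : 1 ≤ N := by omega
  have e2 : (B + 2) ^ dd ≤ N ^ D :=
    (Nat.pow_le_pow_left (by omega) dd).trans (Nat.pow_le_pow_right hN1 (by omega))
  have e3 : (B + 2) ^ ds ≤ N ^ D :=
    (Nat.pow_le_pow_left (by omega) ds).trans (Nat.pow_le_pow_right hN1 (by omega))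
  have e4 : (B + 2) ^ d0 ≤ N ^ D :=
    (Nat.pow_le_pow_left (by omega) d0).trans (Nat.pow_le_pow_right hN1 (by omega))
  have e5 : N ≤ N ^ D := by
    calc N = N ^ 1 := (pow_one N).symm
      _ ≤ N ^ D := Nat.pow_le_pow_right hN1 (by omega)
  have e6 : 40 * B + 62 ≤ 62 * N := by omega
  have e7 : k * (40 * B + 62 + (B + 2) ^ dd + (B + 2) ^ ds) ≤ N * (64 * N ^ D) :=
    Nat.mul_le_mul (by omega) (by omega)
  have e8 : N ^ D ≤ N * N ^ D := Nat.le_mul_of_pos_left _ (by omega)
  have e9 : (2 : ℕ) ^ 7 ≤ N ^ 7 := Nat.pow_le_pow_left hN2 7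
  have e10 : 1 ≤ N ^ D := Nat.one_le_pow _ _ (by omega)
  have e11 : (40 * B + 60 + (B + 2) ^ dd +
      (k * (40 * B + 62 + (B + 2) ^ dd + (B + 2) ^ ds) + 1 + (B + 2) ^ d0)) ≤
      128 * (N * N ^ D) := by
    have : N * (64 * N ^ D) = 64 * (N * N ^ D) := by ring
    omega
  refine Nat.add_le_add_left (e11.trans ?_) _
  have e12 : N ^ (D + 8) = N ^ 7 * (N * N ^ D) := by ring
  rw [e12]
  exact Nat.mul_le_mul_right _ e9

theorem loop_machine2 {σ : Type} [Enc σ] (step : σ → σ) (done : σ → Bool)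
    (out : σ → Word) (hs : PolyTime step) (hd : PolyTime done) (ho : PolyTime out) :
    ∃ c : ℕ, ∀ init : Word → σ, PolyTime init →
    ∃ tm : Turing.FinTM2, ∃ eIn : tm.Γ tm.k₀ ≃ Option Bool, ∃ eOut : tm.Γ tm.k₁ ≃ Option Bool,
      ∃ ci : ℕ, ∀ (u v : List (Option Bool)) (k B : ℕ),
        (∀ j < k, done (step^[j] (init ⟨u.flatMap cod⟩)) = false) →
        done (step^[k] (init ⟨u.flatMap cod⟩)) = true →
        (out (step^[k] (init ⟨u.flatMap cod⟩))).w = v.flatMap cod →
        (∀ j ≤ k, esz (step^[j] (init ⟨u.flatMap cod⟩)) ≤ B) →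
        Nonempty (Turing.EvalsToInTime tm.step
          (Turing.initList tm (List.map (fun b : Option Bool => eIn.symm b) u))
          (some (Turing.haltList tm (List.map (fun b : Option Bool => eOut.symm b) v)))
          ((u.length + v.length + 2) ^ ci + (k + B + 2) ^ c)) := by
  obtain ⟨pr, Cr, hr⟩ := exists_readI
  obtain ⟨pw, Cw, hw⟩ := exists_writeO
  obtain ⟨c, hc⟩ := exists_loop2 step done out hs hd ho
  refine ⟨c, fun init hi => ?_⟩
  obtain ⟨pl, ci, hl⟩ := hc init hi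
  have : Fintype (Γ2 (Sum.inr false)) := inferInstanceAs (Fintype (Option Bool))
  refine ⟨machine (Sum.inr false) (Sum.inr true) (.seq pr (.seq (emb pl) pw)), Equiv.refl _,
    Equiv.refl _, 2 * ci + Cr + Cw + 4, fun u v k B h1 h2 h3 h4 => ?_⟩
  obtain ⟨m1, hm1, x1⟩ := hr u
  obtain ⟨m3, hm3, x3⟩ := hw v
  obtain ⟨m2, hm2, x2⟩ := hl (u.flatMap cod) k B h1 h2 h4
  rw [h3] at x2
  have x2' := exec_emb x2 [] []
  have x := Exec.seq _ _ _ _ _ _ _ x1 (Exec.seq _ _ _ _ _ _ _ x2' x3)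
  have eu : Function.update (fun _ => [] : ∀ k, List (Γ2 k)) (Sum.inr false) u =
      st2 (st [] [] [] [] [] []) u [] := by
    rw [w4_empty, update_st2_in]
  have ev : Function.update (fun _ => [] : ∀ k, List (Γ2 k)) (Sum.inr true) v =
      st2 (st [] [] [] [] [] []) [] v := by
    rw [w4_empty, update_st2_out]
  rw [← eu, ← ev] at x
  obtain ⟨r⟩ := evals_of_exec (Sum.inr false) (Sum.inr true) (.seq pr (.seq (emb pl) pw)) u v _ x
  have hlen : (u.flatMap cod).length = 2 * u.length := w2len_cod u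
  have hbd : m1 + (m2 + m3) + 1 ≤
      (u.length + v.length + 2) ^ (2 * ci + Cr + Cw + 4) + (k + B + 2) ^ c := by
    set N := u.length + v.length + 2 with hN
    have hN2 : 2 ≤ N := by omega
    have b1 : m1 ≤ N ^ (Cr + 1) := hm1.trans (w4_bound N Cr _ hN2 (by omega))
    have b3 : m3 ≤ N ^ (Cw + 1) := hm3.trans (w4_bound N Cw _ hN2 (by omega))
    have b2 : m2 ≤ N ^ (2 * ci) + (k + B + 2) ^ c := by
      refine hm2.trans (Nat.add_le_add_right ?_ _)
      rw [hlen, pow_mul]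
      refine Nat.pow_le_pow_left ?_ ci
      nlinarith
    have hpos : 0 < N := by omega
    have c1 : N ^ (Cr + 1) ≤ N ^ (2 * ci + Cr + Cw + 1) := Nat.pow_le_pow_right hpos (by omega)
    have c2 : N ^ (2 * ci) ≤ N ^ (2 * ci + Cr + Cw + 1) := Nat.pow_le_pow_right hpos (by omega)
    have c3 : N ^ (Cw + 1) ≤ N ^ (2 * ci + Cr + Cw + 1) := Nat.pow_le_pow_right hpos (by omega)
    have c4 : 1 ≤ N ^ (2 * ci + Cr + Cw + 1) := Nat.one_le_pow _ _ hpos
    have c5 : 4 * N ^ (2 * ci + Cr + Cw + 1) ≤ N ^ (2 * ci + Cr + Cw + 4) := by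
      have : N ^ (2 * ci + Cr + Cw + 4) = N ^ 3 * N ^ (2 * ci + Cr + Cw + 1) := by
        rw [← pow_add]
        congr 1
        omega
      rw [this]
      refine Nat.mul_le_mul_right _ ?_
      have : 2 ^ 3 ≤ N ^ 3 := Nat.pow_le_pow_left hN2 3
      omega
    omega
  have key : ∀ (u' v' : List (Option Bool)), u' = u → v' = v →
      Nonempty (StateTransition.EvalsToInTime
        (machine (Sum.inr false) (Sum.inr true) (.seq pr (.seq (emb pl) pw))).step
        (Turing.initList (machine (Sum.inr false) (Sum.inr true) (.seq pr (.seq (emb pl) pw))) u')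
        (some (Turing.haltList
          (machine (Sum.inr false) (Sum.inr true) (.seq pr (.seq (emb pl) pw))) v'))
        ((u.length + v.length + 2) ^ (2 * ci + Cr + Cw + 4) + (k + B + 2) ^ c)) := by
    intro u' v' h5 h6
    subst h5 h6
    exact ⟨⟨r.toEvalsTo, r.steps_le_m.trans hbd⟩⟩
  exact key _ _ (List.map_id u) (List.map_id v)

end Pool.Agent.Helper64.ETHT
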