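import Mathlib
import Pool.Agent.Helper50.ETH.Defs
import Pool.Agent.Helper33.ETH.Assemble
import Pool.Agent.Helper64.ETHT.Loop

/-!
# Assembly of the machine for 3SAT with a budget in the state

The state is `(instance, ((b, (c, P)), (done, answer)))` with `P = 2 ^ c` and the budget `b = B n` computed once by the
initialisation. The round function does not depend on `B`, so the exponent of the time does not depend on `B`.
-/

set_option autoImplicit false

namespace Pool.Agent.Helper64.ETHT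

open Pool.Agent.Helper36.PT Pool.Agent.Helper81.VCP Pool.Agent.Helper50.ETH Pool.Agent.Helper33.ETH

/-- States of the loop. -/
abbrev StF := Inst × ((ℕ × (ℕ × ℕ)) × (Bool × Bool))

/-- One round. -/
noncomputable def stp2 (ans : Inst × ℕ → Bool) (s : StF) : StF :=
  bif s.2.2.1 then s
  else bif dec (s.2.1.1 ≤ s.2.1.2.1) then
    (s.1, ((s.2.1.1, (s.2.1.2.1, s.2.1.2.2)), (true, ans (s.1, s.2.1.2.2))))
  else (s.1, ((s.2.1.1, (s.2.1.2.1 + 1, 2 * s.2.1.2.2)), (false, false)))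

theorem stp2_pt (ans : Inst × ℕ → Bool) (ha : PolyTime ans) : PolyTime (stp2 ans) := by
  have h2 : PolyTime (fun s : StF => ans (s.1, s.2.1.2.2)) := ha.comp (by fun_prop)
  unfold stp2
  fun_prop

theorem stp2_iter (ans : Inst × ℕ → Bool) (x : Inst) (b j : ℕ) (hj : j ≤ b) :
    (stp2 ans)^[j] (x, ((b, (0, 1)), (false, false))) = (x, ((b, (j, 2 ^ j)), (false, false))) := by
  induction j with
  | zero => rfl
  | succ j ih =>
    rw [Function.iterate_succ_apply', ih (by omega)]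
    have h : dec (b ≤ j) = false := by
      rw [Bool.eq_false_iff]
      intro h
      rw [dec_eq_true] at h
      omega
    unfold stp2
    simp only [h, cond_false]
    rw [pow_succ, mul_comm]

theorem stp2_last (ans : Inst × ℕ → Bool) (x : Inst) (b : ℕ) :
    (stp2 ans)^[b + 1] (x, ((b, (0, 1)), (false, false))) =
      (x, ((b, (b, 2 ^ b)), (true, ans (x, 2 ^ b)))) := by
  rw [Function.iterate_succ_apply', stp2_iter ans x b _ le_rfl]
  have h : dec (b ≤ b) = true := by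
    rw [dec_eq_true]
  unfold stp2
  simp only [h, cond_false, cond_true]

private theorem e_pair {α β : Type} [Enc α] [Enc β] (a : α) (b : β) :
    esz (a, b) = 2 * esz a + 1 + esz b := by
  change (fr (enc a) ++ enc b).length = _
  rw [List.length_append, length_fr]
  rfl

private theorem e_nat (m : ℕ) : esz m = m := by
  change (List.replicate m true).length = m
  rw [List.length_replicate]

theorem esz_stF (x : Inst) (b c P : ℕ) (d a : Bool) :
    esz ((x, ((b, (c, P)), (d, a))) : StF) = 2 * esz x + 4 * b + 4 * c + 2 * P + 10 := by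
  rw [e_pair x, e_pair (b, (c, P)), e_pair b (c, P), e_pair c P, e_pair d a, e_nat b, e_nat c, e_nat P]
  have h1 : esz d = 1 := rfl
  have h2 : esz a = 1 := rfl
  rw [h1, h2]
  ring

theorem arith2 (n m b c ci : ℕ) :
    ((n + 1) * (m + 1) + 1 + 2) ^ ci + ((b + 1) +
      (2 * (2 * n + 1 + m * (10 * n + 1)) + 8 * b + 2 * 2 ^ b + 10) + 2) ^ c ≤
      (n + m + 2) ^ (3 * ci + 8 * c + 1) * 2 ^ (c * b) := by
  have hb : b ≤ 2 ^ b := Nat.lt_two_pow_self.le
  have hU : 1 ≤ 2 ^ b := Nat.one_le_two_pow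
  have hUc : 1 ≤ 2 ^ (c * b) := Nat.one_le_two_pow
  have hUe : 2 ^ (c * b) = (2 ^ b) ^ c := by
    rw [← pow_mul, mul_comm]
  rw [hUe] at hUc ⊢
  generalize 2 ^ b = U at hb hU hUc
  have ht2 : 2 ≤ n + m + 2 := by omega
  have hT : 4 ≤ (n + m + 2) ^ 2 := by
    calc 4 = 2 ^ 2 := by norm_num
      _ ≤ (n + m + 2) ^ 2 := Nat.pow_le_pow_left (by omega) 2
  have h1 : (b + 1) + (2 * (2 * n + 1 + m * (10 * n + 1)) + 8 * b + 2 * U + 10) + 2 ≤
      64 * ((n + m + 2) ^ 2 * U) := by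
    have h2 : (4 * n + 2 + 20 * (m * n) + 2 * m) + 13 ≤ 40 * (n + m + 2) ^ 2 := by nlinarith
    have h3 : 40 * (n + m + 2) ^ 2 + 11 * U ≤ 64 * ((n + m + 2) ^ 2 * U) := by
      generalize (n + m + 2) ^ 2 = T at hT
      have h4 : T ≤ T * U := Nat.le_mul_of_pos_right _ (by omega)
      have h5 : 4 * U ≤ T * U := Nat.mul_le_mul_right _ hT
      omega
    have h4 : 2 * (2 * n + 1 + m * (10 * n + 1)) = 4 * n + 2 + 20 * (m * n) + 2 * m := by ring
    omega
  have h5 : 64 * ((n + m + 2) ^ 2 * U) ≤ (n + m + 2) ^ 8 * U := by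
    have h6 : 64 ≤ (n + m + 2) ^ 6 := by
      calc 64 = 2 ^ 6 := by norm_num
        _ ≤ (n + m + 2) ^ 6 := Nat.pow_le_pow_left (by omega) 6
    calc 64 * ((n + m + 2) ^ 2 * U) ≤ (n + m + 2) ^ 6 * ((n + m + 2) ^ 2 * U) :=
          Nat.mul_le_mul_right _ h6
      _ = (n + m + 2) ^ 8 * U := by ring
  have h7 : (n + 1) * (m + 1) + 1 + 2 ≤ (n + m + 2) ^ 3 := by
    have h8 : 2 * (n + m + 2) ^ 2 ≤ (n + m + 2) ^ 3 := by
      calc 2 * (n + m + 2) ^ 2 ≤ (n + m + 2) * (n + m + 2) ^ 2 := Nat.mul_le_mul_right _ ht2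
        _ = (n + m + 2) ^ 3 := by ring
    have h9 : (n + 1) * (m + 1) + 1 + 2 ≤ 2 * (n + m + 2) ^ 2 := by nlinarith
    exact h9.trans h8
  have a1 : ((n + 1) * (m + 1) + 1 + 2) ^ ci ≤ (n + m + 2) ^ (3 * ci + 8 * c) * U ^ c := by
    calc ((n + 1) * (m + 1) + 1 + 2) ^ ci ≤ ((n + m + 2) ^ 3) ^ ci := Nat.pow_le_pow_left h7 ci
      _ = (n + m + 2) ^ (3 * ci) := by rw [← pow_mul]
      _ ≤ (n + m + 2) ^ (3 * ci + 8 * c) := Nat.pow_le_pow_right (by omega) (by omega)
      _ ≤ (n + m + 2) ^ (3 * ci + 8 * c) * U ^ c := Nat.le_mul_of_pos_right _ (by omega)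
  have a2 : ((b + 1) + (2 * (2 * n + 1 + m * (10 * n + 1)) + 8 * b + 2 * U + 10) + 2) ^ c ≤
      (n + m + 2) ^ (3 * ci + 8 * c) * U ^ c := by
    calc _ ≤ ((n + m + 2) ^ 8 * U) ^ c := Nat.pow_le_pow_left (h1.trans h5) c
      _ = (n + m + 2) ^ (8 * c) * U ^ c := by rw [mul_pow, ← pow_mul]
      _ ≤ (n + m + 2) ^ (3 * ci + 8 * c) * U ^ c :=
          Nat.mul_le_mul_right _ (Nat.pow_le_pow_right (by omega) (by omega))
  calc _ ≤ (n + m + 2) ^ (3 * ci + 8 * c) * U ^ c + (n + m + 2) ^ (3 * ci + 8 * c) * U ^ c :=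
        Nat.add_le_add a1 a2
    _ = 2 * ((n + m + 2) ^ (3 * ci + 8 * c) * U ^ c) := by ring
    _ ≤ (n + m + 2) * ((n + m + 2) ^ (3 * ci + 8 * c) * U ^ c) := Nat.mul_le_mul_right _ ht2
    _ = (n + m + 2) ^ (3 * ci + 8 * c + 1) * U ^ c := by ring

/-- **Assembly**: the constant `C2` does not depend on the budget `B`. -/
theorem assemble2 (prs : Word → Inst) (hp : PolyTime prs)
    (hps : ∀ (n : ℕ) (φ : List (Fin n → Option Bool)),
      prs ⟨(code φ).flatMap cod⟩ = (n, φ.map List.ofFn))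
    (ans : Inst × ℕ → Bool) (ha : PolyTime ans) :
    ∃ C2 : ℕ, ∀ B : ℕ → ℕ, PolyTime B →
    (∀ (n : ℕ) (φ : List (Fin n → Option Bool)), Width3 φ →
      (ans ((n, φ.map List.ofFn), 2 ^ B n) = true ↔ Sat φ)) →
    ∃ tm : Turing.FinTM2, ∃ eIn : tm.Γ tm.k₀ ≃ Option Bool, ∃ eOut : tm.Γ tm.k₁ ≃ Option Bool,
      ∃ C : ℕ, ∀ (n : ℕ) (φ : List (Fin n → Option Bool)), Width3 φ →
        Nonempty (Turing.EvalsToInTime tm.step
          (Turing.initList tm (List.map (fun b : Option Bool => eIn.symm b) (code φ)))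
          (some (Turing.haltList tm
            (List.map (fun b : Option Bool => eOut.symm b) [some (dec (Sat φ))])))
          ((n + φ.length + 2) ^ C * 2 ^ (C2 * B n))) := by
  obtain ⟨c, hc0⟩ := loop_machine2 (stp2 ans) (fun s => s.2.2.1) (fun s => (⟨[true, s.2.2.2]⟩ : Word))
    (stp2_pt ans ha) (by fun_prop) (by fun_prop)
  refine ⟨c, fun B hB hc => ?_⟩
  have hinit : PolyTime (fun w => ((prs w, ((B (prs w).1, (0, 1)), (false, false))) : StF)) := by
    have h1 : PolyTime (fun w => B (prs w).1) := hB.comp (by fun_prop)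
    fun_prop
  obtain ⟨tm, eIn, eOut, ci, hm⟩ := hc0 _ hinit
  refine ⟨tm, eIn, eOut, 3 * ci + 8 * c + 1, fun n φ hw => ?_⟩
  have hans : ans ((n, φ.map List.ofFn), 2 ^ B n) = dec (Sat φ) := by
    rw [Bool.eq_iff_iff, dec_eq_true]
    exact hc n φ hw
  have hit := stp2_iter ans (n, φ.map List.ofFn) (B n)
  have hla := stp2_last ans (n, φ.map List.ofFn) (B n)
  rw [hans] at hla
  dsimp only at hm
  obtain ⟨tr⟩ := hm (code φ) [some (dec (Sat φ))] (B n + 1)
    (2 * (2 * n + 1 + φ.length * (10 * n + 1)) + 8 * B n + 2 * 2 ^ B n + 10)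
    (by
      intro j hj
      rw [hps, hit j (by omega)])
    (by rw [hps, hla])
    (by
      rw [hps, hla]
      simp [cod])
    (by
      intro j hj
      have hin := esz_inst φ
      rcases Nat.lt_or_ge j (B n + 1) with h | h
      · rw [hps, hit j (by omega), esz_stF]
        have : 2 ^ j ≤ 2 ^ B n := Nat.pow_le_pow_right (by norm_num) (by omega)
        omega
      · have : j = B n + 1 := by omega
        subst this
        rw [hps, hla, esz_stF]
        omega)
  have hbound : ((code φ).length + [some (dec (Sat φ))].length + 2) ^ ci + ((B n + 1) +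
      (2 * (2 * n + 1 + φ.length * (10 * n + 1)) + 8 * B n + 2 * 2 ^ B n + 10) + 2) ^ c ≤
      (n + φ.length + 2) ^ (3 * ci + 8 * c + 1) * 2 ^ (c * B n) := by
    rw [length_code]
    exact arith2 n φ.length (B n) c ci
  exact ⟨{ tr with steps_le_m := tr.steps_le_m.trans hbound }⟩

end Pool.Agent.Helper64.ETHT
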