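import Mathlib
import Pool.Agent.Helper15.ETH.Budget
import Pool.Agent.Helper67.ETH.Rows
import Pool.Agent.Helper64.ETH.Prs
import Pool.Agent.Helper64.ETHT.MainT
import Pool.Agent.Helper58.ETHT.Arith

/-!
# The sharp form of the ETH hardness of dualization
-/

set_option autoImplicit false

namespace Pool.Agent.Helper64.ETHT

open Pool.Agent.Helper36.PT Pool.Agent.Helper81.VCP Pool.Agent.Helper50.ETH
open Pool.Agent.Helper64.ETH Pool.Agent.Helper33.ETH Pool.Agent.Helper58.ETHT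

/-- The maximum of `M ^ g M` over `M ≤ N`. -/
def Tg (g : ℕ → ℕ) (N : ℕ) : ℕ := (Finset.range (N + 1)).sup (fun M => M ^ g M)

theorem Tg_mono (g : ℕ → ℕ) {N M : ℕ} (h : N ≤ M) : Tg g N ≤ Tg g M := by
  unfold Tg
  apply Finset.sup_mono
  intro x hx
  rw [Finset.mem_range] at hx ⊢
  omega

theorem le_Tg (g : ℕ → ℕ) (N : ℕ) : N ^ g N ≤ Tg g N := by
  unfold Tg
  exact Finset.le_sup (f := fun M => M ^ g M) (Finset.mem_range.2 (Nat.lt_succ_self N))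

/-- `root b (n ^ a) ≤ n ^ (a / b) + 1`. -/
theorem root_le (a b n : ℕ) (hb : 0 < b) :
    ((Helper15.ETH.root b (n ^ a) : ℕ) : ℝ) ≤ (n : ℝ) ^ ((a : ℝ) / b) + 1 := by
  set r := Helper15.ETH.root b (n ^ a) with hr
  rcases Nat.eq_zero_or_pos r with h | h
  · rw [h]
    simp only [Nat.cast_zero]
    positivity
  · have h1 : ¬ n ^ a ≤ (r - 1) ^ b := by
      intro hc
      have := Helper15.ETH.root_min hc
      omega
    push Not at h1
    have h2 : ((r - 1 : ℕ) : ℝ) ≤ (n : ℝ) ^ ((a : ℝ) / b) := by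
      have h3 : (((r - 1 : ℕ) : ℝ)) ^ b ≤ (n : ℝ) ^ a := by exact_mod_cast h1.le
      have h4 : (((n : ℝ) ^ ((a : ℝ) / b)) ^ b) = (n : ℝ) ^ a := by
        rw [← Real.rpow_natCast, ← Real.rpow_mul (by positivity), ← Real.rpow_natCast]
        congr 1
        have : (b : ℝ) ≠ 0 := by exact_mod_cast hb.ne'
        field_simp
      rw [← h4] at h3
      exact le_of_pow_le_pow_left₀ hb.ne' (by positivity) h3
    rw [Nat.cast_sub h] at h2
    push_cast at h2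
    linarith

/-- `n ^ (a / b) ≤ root b (n ^ a)`. -/
theorem le_root (a b n : ℕ) (hb : 0 < b) :
    (n : ℝ) ^ ((a : ℝ) / b) ≤ ((Helper15.ETH.root b (n ^ a) : ℕ) : ℝ) := by
  have h3 : (n : ℝ) ^ a ≤ ((Helper15.ETH.root b (n ^ a) : ℕ) : ℝ) ^ b := by
    exact_mod_cast Helper15.ETH.root_spec hb (n ^ a)
  have h4 : (((n : ℝ) ^ ((a : ℝ) / b)) ^ b) = (n : ℝ) ^ a := by
    rw [← Real.rpow_natCast, ← Real.rpow_mul (by positivity), ← Real.rpow_natCast]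
    congr 1
    have : (b : ℝ) ≠ 0 := by exact_mod_cast hb.ne'
    field_simp
  rw [← h4] at h3
  exact le_of_pow_le_pow_left₀ hb.ne' (by positivity) h3

theorem aux_pow (x E F : ℕ) : x * 2 ^ (E + F) = x * 2 ^ F * 2 ^ E := by
  rw [pow_add]
  ring

theorem eth_tight (a b : ℕ) (hb : 0 < b) (h1 : 2 * b < 3 * a) (h2 : a ≤ b) (g : ℕ → ℕ)
    (hg : ∀ ε : ℝ, 0 < ε → ∃ N0 : ℕ, ∀ N : ℕ, N0 ≤ N → (g N : ℝ) ≤ ε * hh ((a : ℝ) / b) N)
    {tm : Turing.FinTM2} {eIn : tm.Γ tm.k₀ ≃ Option Bool} {eOut : tm.Γ tm.k₁ ≃ Option Bool}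
    (hD : Dual tm eIn eOut (fun N => (N + 2) ^ g (N + 2))) (δ : ℝ) (hδ : 0 < δ) :
    ∃ tm : Turing.FinTM2, ∃ eIn : tm.Γ tm.k₀ ≃ Option Bool, ∃ eOut : tm.Γ tm.k₁ ≃ Option Bool,
      ∃ C : ℕ, ∀ (n : ℕ) (φ : List (Fin n → Option Bool)), Width3 φ →
        Nonempty (Turing.EvalsToInTime tm.step
          (Turing.initList tm (List.map (fun b : Option Bool => eIn.symm b) (code φ)))
          (some (Turing.haltList tm
            (List.map (fun b : Option Bool => eOut.symm b) [some (dec (Sat φ))])))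
          ((n + φ.length + 2) ^ C * 2 ^ ⌊δ * (n : ℝ) ^ ((a : ℝ) / b)⌋₊)) := by
  have hT : Monotone (fun N => Tg (fun N => g N + 1) (N + 2)) := fun x y h => Tg_mono _ (by omega)
  have hD' : Dual tm eIn eOut (fun N => Tg (fun N => g N + 1) (N + 2)) := by
    intro n E
    obtain ⟨L, h1, h2, ⟨tr⟩⟩ := hD n E
    refine ⟨L, h1, h2, ⟨{ tr with steps_le_m := tr.steps_le_m.trans ?_ }⟩⟩
    refine le_trans ?_ (le_Tg _ _)
    exact Nat.pow_le_pow_right (by omega) (by omega)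
  obtain ⟨C2, hC2⟩ := main_T2 hT hD' Pool.Agent.Helper64.ETH.prs Pool.Agent.Helper64.ETH.prs_pt
    Pool.Agent.Helper64.ETH.prs_spec Pool.Agent.Helper67.ETH.wordF Pool.Agent.Helper67.ETH.wordF_pt
    Pool.Agent.Helper67.ETH.wordF_eq Pool.Agent.Helper67.ETH.kap_polyTime
  obtain ⟨J, hJ⟩ := exists_nat_gt ((C2 : ℝ) / δ)
  have hJ0 : 0 < J := by
    rcases Nat.eq_zero_or_pos J with h | h
    · rw [h, Nat.cast_zero] at hJ
      have : 0 ≤ (C2 : ℝ) / δ := by positivity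
      linarith
    · exact h
  have hJr : (0 : ℝ) < J := by exact_mod_cast hJ0
  have hbr : (0 : ℝ) < b := by exact_mod_cast hb
  have hβ1 : (2 / 3 : ℝ) < (a : ℝ) / b := by
    rw [div_lt_div_iff₀ (by norm_num) hbr]
    exact_mod_cast (by omega : 2 * b < a * 3)
  have hβ2 : (a : ℝ) / b ≤ 1 := by
    rw [div_le_one hbr]
    exact_mod_cast h2
  obtain ⟨C0, hC0'⟩ := arith ((a : ℝ) / b) hβ1 hβ2 g hg J hJ0
  have hC0 : ∀ n, Tg (fun N => g N + 1) (bound n) ≤ 2 ^ (Helper15.ETH.root b (n ^ a) / J + C0) := by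
    intro n
    unfold Tg
    apply Finset.sup_le
    intro M hM
    rw [Finset.mem_range] at hM
    rcases Nat.eq_zero_or_pos M with h | h
    · subst h
      rw [zero_pow (Nat.succ_ne_zero _)]
      exact Nat.zero_le _
    · refine (hC0' n M h (by omega)).trans (Nat.pow_le_pow_right (by norm_num) ?_)
      have h5 : ⌊(n : ℝ) ^ ((a : ℝ) / b)⌋₊ ≤ Helper15.ETH.root b (n ^ a) := by
        have h6 := Nat.floor_mono (le_root a b n hb)
        rwa [Nat.floor_natCast] at h6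
      have h7 : ⌊(n : ℝ) ^ ((a : ℝ) / b)⌋₊ / J ≤ Helper15.ETH.root b (n ^ a) / J := Nat.div_le_div_right h5
      omega
  have hBpt : PolyTime (fun n : ℕ => Helper15.ETH.root b (n ^ a) / J + C0) := by
    fun_prop
  obtain ⟨tm', eIn', eOut', C, hC⟩ := hC2 (fun n => Helper15.ETH.root b (n ^ a) / J + C0) hBpt
    (fun n => by
      refine le_trans ?_ (hC0 n)
      refine le_trans ?_ (le_Tg _ _)
      exact Nat.le_self_pow (by omega) _)
    (fun n => by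
      have h3 : bound n - 2 + 2 = bound n := by
        have := Pool.Agent.Helper16.ETH.two_le_bound n
        omega
      rw [h3]
      exact hC0 n)
  refine ⟨tm', eIn', eOut', C + (C2 * C0 + ⌈δ⌉₊ + 1), fun n φ hφ => ?_⟩
  obtain ⟨tr⟩ := hC n φ hφ
  refine ⟨{ tr with steps_le_m := tr.steps_le_m.trans ?_ }⟩
  set r := Helper15.ETH.root b (n ^ a) with hr
  have hroot := root_le a b n hb
  rw [← hr] at hroot
  have hnn : (0 : ℝ) ≤ (n : ℝ) ^ ((a : ℝ) / b) := by positivity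
  -- the exponent
  have hexp : C2 * (r / J + C0) ≤ ⌊δ * (n : ℝ) ^ ((a : ℝ) / b)⌋₊ + (C2 * C0 + ⌈δ⌉₊ + 1) := by
    have e1 : ((C2 * (r / J + C0) : ℕ) : ℝ) ≤ δ * (n : ℝ) ^ ((a : ℝ) / b) + δ + C2 * C0 := by
      have e2 : (((r / J : ℕ)) : ℝ) ≤ (r : ℝ) / J := Nat.cast_div_le
      have e3 : (C2 : ℝ) * ((r : ℝ) / J) ≤ δ * r := by
        have e4 : (C2 : ℝ) / J ≤ δ := by
          rw [div_le_iff₀ hJr]
          rw [div_lt_iff₀ hδ] at hJ
          linarith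
        have hr0 : (0 : ℝ) ≤ r := Nat.cast_nonneg _
        calc (C2 : ℝ) * ((r : ℝ) / J) = (C2 : ℝ) / J * r := by ring
          _ ≤ δ * r := mul_le_mul_of_nonneg_right e4 hr0
      have hC20 : (0 : ℝ) ≤ C2 := Nat.cast_nonneg _
      push_cast
      calc (C2 : ℝ) * (((r / J : ℕ) : ℝ) + C0) = (C2 : ℝ) * ((r / J : ℕ) : ℝ) + C2 * C0 := by ring
        _ ≤ (C2 : ℝ) * ((r : ℝ) / J) + C2 * C0 := by
            have := mul_le_mul_of_nonneg_left e2 hC20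
            linarith
        _ ≤ δ * r + C2 * C0 := by linarith
        _ ≤ δ * ((n : ℝ) ^ ((a : ℝ) / b) + 1) + C2 * C0 := by
            have := mul_le_mul_of_nonneg_left hroot hδ.le
            linarith
        _ = δ * (n : ℝ) ^ ((a : ℝ) / b) + δ + C2 * C0 := by ring
    have e5 : δ * (n : ℝ) ^ ((a : ℝ) / b) < ⌊δ * (n : ℝ) ^ ((a : ℝ) / b)⌋₊ + 1 := Nat.lt_floor_add_one _
    have e6 : δ ≤ ⌈δ⌉₊ := Nat.le_ceil δ
    have e7 : ((C2 * (r / J + C0) : ℕ) : ℝ) <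
        ((⌊δ * (n : ℝ) ^ ((a : ℝ) / b)⌋₊ + (C2 * C0 + ⌈δ⌉₊ + 1) : ℕ) : ℝ) := by
      refine lt_of_le_of_lt e1 ?_
      push_cast
      linarith
    exact_mod_cast e7.le
  calc (n + φ.length + 2) ^ C * 2 ^ (C2 * (r / J + C0))
      ≤ (n + φ.length + 2) ^ C * 2 ^ (⌊δ * (n : ℝ) ^ ((a : ℝ) / b)⌋₊ + (C2 * C0 + ⌈δ⌉₊ + 1)) :=
        Nat.mul_le_mul_left _ (Nat.pow_le_pow_right (by norm_num) hexp)
    _ = (n + φ.length + 2) ^ C * 2 ^ (C2 * C0 + ⌈δ⌉₊ + 1) * 2 ^ ⌊δ * (n : ℝ) ^ ((a : ℝ) / b)⌋₊ :=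
        aux_pow _ _ _
    _ ≤ (n + φ.length + 2) ^ C * (n + φ.length + 2) ^ (C2 * C0 + ⌈δ⌉₊ + 1) *
          2 ^ ⌊δ * (n : ℝ) ^ ((a : ℝ) / b)⌋₊ := by
        apply Nat.mul_le_mul_right
        apply Nat.mul_le_mul_left
        exact Nat.pow_le_pow_left (by omega) _
    _ = (n + φ.length + 2) ^ (C + (C2 * C0 + ⌈δ⌉₊ + 1)) * 2 ^ ⌊δ * (n : ℝ) ^ ((a : ℝ) / b)⌋₊ := by
        rw [pow_add _ C (C2 * C0 + ⌈δ⌉₊ + 1)]

end Pool.Agent.Helper64.ETHT
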